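import Pool.Agent.X144.PenMain

set_option autoImplicit false

/-!
# A graphon satisfying none of (i)-(iv) whose random graphs are a.a.s. not Hamiltonian

Full answer to Q1 of MP_e2d9cc_pr (the statement is disproved). The definitions `Graphon`,
`sample`, `prHam`, `IsConn`, `lowDeg`, `NarrowPeninsula` and `BalancedBipartite` are in
`Pool/Agent/X144/PenDefs.lean`. The graphon has infinitely many disjoint peninsulas: `[0,1]` is cut
into pieces `A i`, `C i` of equal measure `2^(-i-2)`, `W = 1` on `A i × C i`, on `C i × A i` and on
`C i × C j` for all `i`, `j`, and `W = 0` elsewhere.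
-/

namespace Pool.Agent.Results.MP_e2d9cc_pr.InfinitelyManyPeninsulas

open MeasureTheory Filter Topology Pool.Agent.X144.Pen

/-- There is a graphon `W` on `[0,1]` with Lebesgue measure (an atomless standard probability
space) which is connected, for which `μ(D_W(α))/α` does not tend to infinity as `α ↘ 0`, which has
no narrow peninsula, and which is not bipartite with parts of measure `1/2`, such that the
probability that `G(n,W)` is Hamiltonian tends to `0`. -/
theorem result : ∃ W : Graphon unitInterval,
    IsConn volume W ∧
    ¬ Tendsto (fun α : ℝ => (volume : Measure unitInterval).real (lowDeg volume W α) / α)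
      (𝓝[>] 0) atTop ∧
    ¬ NarrowPeninsula volume W ∧
    ¬ BalancedBipartite volume W ∧
    Tendsto (fun n : ℕ => prHam volume W n) atTop (𝓝 0) :=
  ⟨G0, conn, not_ii, not_iii, not_iv, tendsto_prHam⟩

end Pool.Agent.Results.MP_e2d9cc_pr.InfinitelyManyPeninsulas
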